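import Mathlib

/-!
# MP_4402c4: palindromic defect and the sum of `T` for recurrent words not closed under reversal

Let `U 0` be empty and `U (n + 1) = U n B n U n` with `B n = 0^k 1^k 2^k`, `k = 2 |U n| + n + 2`.
The limit word `u` is recurrent, contains the palindromes `0^j`, its language is not closed under
reversal (it contains `01` but not `10`), and the partial sums of `∑ T_u(n)` are not bounded below,
so they do not converge to `2 D(u)`.
-/

set_option autoImplicit false

open Filter Topology

namespace Pool.Agent.Results.MP_4402c4_co.SumDiverges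

/-- The factor of length `n` of `u` that starts at position `i`. -/
def factor {A : Type} (u : ℕ → A) (i n : ℕ) : List A := (List.range n).map fun j => u (i + j)

/-- The language of `u`: the set of all its factors. -/
def language {A : Type} (u : ℕ → A) : Set (List A) := {w | ∃ i n : ℕ, w = factor u i n}

/-- The language of `u` is closed under reversal. -/
def ClosedUnderReversal {A : Type} (u : ℕ → A) : Prop := ∀ w ∈ language u, w.reverse ∈ language u

/-- `u` is recurrent: every factor of `u` occurs infinitely often. -/
def IsRecurrent {A : Type} (u : ℕ → A) : Prop :=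
  ∀ w ∈ language u, ∀ N : ℕ, ∃ i : ℕ, N ≤ i ∧ factor u i w.length = w

/-- The number of factors of length `n`. -/
noncomputable def complexity {A : Type} (u : ℕ → A) (n : ℕ) : ℕ :=
  {w | w ∈ language u ∧ w.length = n}.ncard

/-- The number of palindromic factors of length `n`. -/
noncomputable def palComplexity {A : Type} (u : ℕ → A) (n : ℕ) : ℕ :=
  {w | w ∈ language u ∧ w.length = n ∧ w.reverse = w}.ncard

/-- `T_u(n) = C(n+1) - C(n) + 2 - P(n+1) - P(n)`. -/
noncomputable def T {A : Type} (u : ℕ → A) (n : ℕ) : ℤ :=
  (complexity u (n + 1) : ℤ) - complexity u n + 2 - palComplexity u (n + 1) - palComplexity u n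

/-- The defect of a finite word: `|w| + 1` minus the number of its distinct palindromic factors. -/
noncomputable def wordDefect {A : Type} (w : List A) : ℕ :=
  w.length + 1 - {p : List A | p <:+: w ∧ p.reverse = p}.ncard

/-- The defect of an infinite word: the supremum of the defects of its initial factors. -/
noncomputable def defect {A : Type} (u : ℕ → A) : ℕ∞ := ⨆ n : ℕ, (wordDefect (factor u 0 n) : ℕ∞)

/-- The series `∑ T_u(n)` converges to `2 D(u)` in `ℤ ∪ {-∞, +∞}`. -/
def SumEqTwiceDefect {A : Type} (u : ℕ → A) : Prop :=
  Tendsto (fun N : ℕ => (((∑ n ∈ Finset.range N, T u n : ℤ) : ℝ) : EReal)) atTop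
    (𝓝 (((2 * defect u : ℕ∞) : ENNReal) : EReal))

/-! ### The word -/

/-- The block `0^k 1^k 2^k`. -/
def block (k : ℕ) : List (Fin 3) :=
  List.replicate k 0 ++ (List.replicate k 1 ++ List.replicate k 2)

/-- The finite words `U n`. -/
def U : ℕ → List (Fin 3)
  | 0 => []
  | n + 1 => U n ++ (block (2 * (U n).length + n + 2) ++ U n)

/-- The block length used in step `n`. -/
def kk (n : ℕ) : ℕ := 2 * (U n).length + n + 2

theorem U_succ (n : ℕ) : U (n + 1) = U n ++ (block (kk n) ++ U n) := rfl

@[simp] theorem block_length (k : ℕ) : (block k).length = 3 * k := by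
  simp [block]; omega

theorem U_length_succ (n : ℕ) : (U (n + 1)).length = 2 * (U n).length + 3 * kk n := by
  rw [U_succ]; simp; omega

theorem le_U_length (n : ℕ) : n ≤ (U n).length := by
  induction n with
  | zero => simp
  | succ n ih => rw [U_length_succ]; unfold kk; omega

theorem U_pre (n m : ℕ) (h : n ≤ m) : U n <+: U m := by
  induction m, h using Nat.le_induction with
  | base => exact List.prefix_rfl
  | succ m _ ih => exact ih.trans ⟨_, rfl⟩

theorem U_suf (n m : ℕ) (h : n ≤ m) : U n <:+ U m := by
  induction m, h using Nat.le_induction with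
  | base => exact List.suffix_rfl
  | succ m _ ih => exact ih.trans ⟨U m ++ block (kk m), by rw [U_succ]; simp⟩

theorem length_mono (n m : ℕ) (h : n ≤ m) : (U n).length ≤ (U m).length := (U_pre n m h).length_le

theorem kk_mono (n m : ℕ) (h : n ≤ m) : kk n ≤ kk m := by
  unfold kk
  have := length_mono n m h
  omega

/-- The infinite word. -/
def u (i : ℕ) : Fin 3 := (U (i + 1)).getD i 0

theorem u_eq (m i : ℕ) (h : i < (U m).length) : u i = (U m)[i] := by
  unfold u
  have h1 : i < (U (i + 1)).length := lt_of_lt_of_le (Nat.lt_succ_self i) (le_U_length (i + 1))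
  rw [List.getD_eq_getElem _ _ h1]
  rcases le_total (i + 1) m with h2 | h2
  · obtain ⟨t, ht⟩ := U_pre _ _ h2
    simp only [← ht]
    rw [List.getElem_append_left h1]
  · obtain ⟨t, ht⟩ := U_pre _ _ h2
    simp only [← ht]
    rw [List.getElem_append_left h]

theorem factor_eq (m i n : ℕ) (h : i + n ≤ (U m).length) :
    factor u i n = ((U m).drop i).take n := by
  apply List.ext_getElem
  · simp [factor]; omega
  · intro j h1 h2
    simp only [factor, List.length_map, List.length_range] at h1
    simp only [factor, List.getElem_map, List.getElem_range, List.getElem_take, List.getElem_drop]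
    exact u_eq m (i + j) (by omega)

theorem mem_language_iff (w : List (Fin 3)) : w ∈ language u ↔ ∃ m, w <:+: U m := by
  constructor
  · rintro ⟨i, n, rfl⟩
    refine ⟨i + n, ?_⟩
    rw [factor_eq (i + n) i n (le_U_length _)]
    exact (List.take_prefix _ _).isInfix.trans (List.drop_suffix _ _).isInfix
  · rintro ⟨m, s, t, hst⟩
    refine ⟨s.length, w.length, ?_⟩
    rw [factor_eq m s.length w.length (by rw [← hst]; simp), ← hst]
    simp

/-- Positions of infixes. -/
theorem infix_pos (m : ℕ) (w : List (Fin 3)) (h : w <:+: U m) :
    ∃ i, i + w.length ≤ (U m).length ∧ factor u i w.length = w := by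
  obtain ⟨s, t, hst⟩ := h
  refine ⟨s.length, ?_, ?_⟩
  · rw [← hst]; simp
  · rw [factor_eq m s.length w.length (by rw [← hst]; simp), ← hst]
    simp

theorem u_shift (m i : ℕ) (h : i < (U m).length) :
    u (i + ((U m).length + 3 * kk m)) = u i := by
  rw [u_eq (m + 1) _ (by rw [U_length_succ]; omega), u_eq m i h]
  simp only [U_succ]
  rw [List.getElem_append_right (by omega), List.getElem_append_right (by simp; omega)]
  congr 1
  simp
  omega

theorem recurrent : IsRecurrent u := by
  intro w hw N
  obtain ⟨m, hm⟩ := (mem_language_iff w).1 hw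
  obtain ⟨i, hi, hf⟩ := infix_pos (max m N) w (hm.trans (U_pre _ _ (le_max_left _ _)).isInfix)
  refine ⟨i + ((U (max m N)).length + 3 * kk (max m N)), ?_, ?_⟩
  · have := le_U_length (max m N)
    have := le_max_right m N
    omega
  · conv_rhs => rw [← hf]
    unfold factor
    apply List.map_congr_left
    intro j hj
    rw [List.mem_range] at hj
    rw [show i + ((U (max m N)).length + 3 * kk (max m N)) + j =
      (i + j) + ((U (max m N)).length + 3 * kk (max m N)) by omega]
    exact u_shift _ _ (by omega)

theorem rep_mem (a : Fin 3) (j : ℕ) : List.replicate j a ∈ language u := by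
  rw [mem_language_iff]
  refine ⟨j + 1, ?_⟩
  have hk : j ≤ kk j := by unfold kk; omega
  have h1 : List.replicate j a <:+: List.replicate (kk j) a := by
    rw [← Nat.add_sub_cancel' hk, List.replicate_add]
    exact (List.prefix_append _ _).isInfix
  have h2 : List.replicate (kk j) a <:+: block (kk j) := by
    unfold block
    fin_cases a
    · exact ⟨[], _, by simp; rfl⟩
    · exact ⟨List.replicate (kk j) 0, List.replicate (kk j) 2, by simp⟩
    · exact ⟨List.replicate (kk j) 0 ++ List.replicate (kk j) 1, [], by simp⟩
  exact h1.trans (h2.trans ⟨U j, U j, by rw [U_succ]; simp⟩)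

theorem inf_pal : {w | w ∈ language u ∧ w.reverse = w}.Infinite := by
  apply Set.infinite_of_injective_forall_mem (f := fun j : ℕ => List.replicate j (0 : Fin 3))
  · intro i j hij
    have := congrArg List.length hij
    simpa using this
  · intro j
    exact ⟨rep_mem 0 j, by simp⟩

/-- Possible pairs of consecutive letters. -/
def R (x y : Fin 3) : Prop := y = x ∨ y = x + 1

instance : DecidableRel R := fun x y => by unfold R; infer_instance

theorem chain_rep (k : ℕ) (a : Fin 3) : (List.replicate k a).IsChain R := by
  induction k with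
  | zero => simp
  | succ k ih =>
    rw [List.replicate_succ]
    cases k with
    | zero => simp
    | succ k => rw [List.replicate_succ, List.isChain_cons_cons, ← List.replicate_succ]
                exact ⟨Or.inl rfl, ih⟩

theorem chain_block (k : ℕ) : (block k).IsChain R := by
  unfold block
  rw [List.isChain_append, List.isChain_append]
  refine ⟨chain_rep _ _, ⟨chain_rep _ _, chain_rep _ _, ?_⟩, ?_⟩
  · intro x hx y hy
    rw [(List.mem_replicate.1 (List.mem_of_mem_getLast? hx)).2,
      (List.mem_replicate.1 (List.mem_of_mem_head? hy)).2]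
    decide
  · intro x hx y hy
    rw [(List.mem_replicate.1 (List.mem_of_mem_getLast? hx)).2]
    cases k with
    | zero => simp at hx
    | succ k =>
      rw [List.replicate_succ] at hy
      simp at hy
      rw [← hy]
      decide

theorem chain_U (n : ℕ) : (U n).IsChain R ∧ (∀ x ∈ (U n).head?, x = 0) ∧
    (∀ x ∈ (U n).getLast?, x = 2) := by
  induction n with
  | zero => simp [U]
  | succ n ih =>
    obtain ⟨h1, h2, h3⟩ := ih
    obtain ⟨k, hk⟩ : ∃ k, kk n = k + 1 := ⟨kk n - 1, by unfold kk; omega⟩
    have hb1 : (block (kk n)).head? = some 0 := by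
      rw [hk]; unfold block; rw [List.replicate_succ]; simp
    have hb2 : (block (kk n)).getLast? = some 2 := by
      rw [hk]; unfold block
      rw [← List.append_assoc, List.getLast?_append, List.replicate_succ' (a := (2 : Fin 3))]
      simp
    refine ⟨?_, ?_, ?_⟩
    · rw [U_succ, List.isChain_append, List.isChain_append]
      refine ⟨h1, ⟨chain_block _, h1, ?_⟩, ?_⟩
      · intro x hx y hy
        rw [hb2] at hx
        rw [h2 y hy, ← Option.mem_some_iff.1 hx]
        decide
      · intro x hx y hy
        have : y = 0 := by
          rw [List.head?_append, hb1] at hy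
          simpa using hy.symm
        rw [h3 x hx, this]
        decide
    · intro x hx
      rw [U_succ, List.head?_append] at hx
      cases hU : (U n).head? with
      | none =>
        rw [hU, Option.none_or, List.head?_append, hb1] at hx
        simpa using hx.symm
      | some y =>
        rw [hU] at hx
        have : y = x := by simpa using hx
        exact this ▸ h2 y hU
    · intro x hx
      rw [U_succ, List.getLast?_append, List.getLast?_append] at hx
      cases hU : (U n).getLast? with
      | none =>
        rw [hU, Option.none_or, hb2] at hx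
        simpa using hx.symm
      | some y =>
        rw [hU] at hx
        have : y = x := by simpa using hx
        exact this ▸ h3 y hU

theorem not_closed : ¬ ClosedUnderReversal u := by
  intro h
  have h1 : [0, 1] ∈ language u := by
    rw [mem_language_iff]
    refine ⟨1, ?_⟩
    decide
  have h2 := h _ h1
  rw [mem_language_iff] at h2
  obtain ⟨m, s, t, hm⟩ := h2
  have h3 := (chain_U m).1
  rw [← hm] at h3
  have h4 := (List.isChain_append.1 (List.isChain_append.1 h3).1).2.1
  revert h4
  decide

/-! ### Counting factors of length `kk n` -/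

theorem infix_append_cases {A : Type} {x l₁ l₂ : List A} (h : x <:+: l₁ ++ l₂) :
    x <:+: l₁ ∨ x <:+: l₂ ∨ ∃ s t, x = s ++ t ∧ s <:+ l₁ ∧ t <+: l₂ := by
  obtain ⟨p, q, hpq⟩ := h
  rw [List.append_assoc] at hpq
  rcases List.append_eq_append_iff.1 hpq with ⟨a, ha, hb⟩ | ⟨a, ha, hb⟩
  · -- `l₁ = p ++ a`, `x ++ q = a ++ l₂`
    rcases List.append_eq_append_iff.1 hb with ⟨c, hc, hd⟩ | ⟨c, hc, hd⟩
    · -- `a = x ++ c`
      left
      exact ⟨p, c, by rw [ha, hc, List.append_assoc]⟩
    · -- `x = a ++ c`, `l₂ = c ++ q`
      right; right
      exact ⟨a, c, hc, ⟨p, ha.symm⟩, ⟨q, hd.symm⟩⟩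
  · -- `p = l₁ ++ a`, `l₂ = a ++ (x ++ q)`
    right; left
    exact ⟨a, q, by rw [hb, List.append_assoc]⟩

/-- A word containing all factors of length `k = kk n`. -/
def V (n k : ℕ) : List (Fin 3) :=
  List.replicate k 0 ++ (List.replicate k 1 ++ (List.replicate k 2 ++ (U n ++ List.replicate k 0)))

theorem V_length (n k : ℕ) : (V n k).length = 4 * k + (U n).length := by
  simp [V]; omega

theorem block_factor {k K : ℕ} {x : List (Fin 3)} (hk : k ≤ K) (hx : x <:+: block K)
    (hl : x.length = k) : x <:+: block k := by
  have key : ∀ (a b : Fin 3) (s t : List (Fin 3)), s.length + t.length = k →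
      s <:+ List.replicate K a → t <+: List.replicate K b →
      s ++ t <:+: List.replicate k a ++ List.replicate k b := by
    intro a b s t h1 h2 h3
    rw [List.suffix_replicate_iff] at h2
    rw [List.prefix_replicate_iff] at h3
    rw [h2.2, h3.2]
    refine ⟨List.replicate (k - s.length) a, List.replicate (k - t.length) b, ?_⟩
    have r1 : List.replicate k a = List.replicate (k - s.length) a ++ List.replicate s.length a := by
      rw [← List.replicate_add]; congr 1; omega
    have r2 : List.replicate k b = List.replicate t.length b ++ List.replicate (k - t.length) b := by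
      rw [← List.replicate_add]; congr 1; omega
    rw [r1, r2]
    simp only [List.append_assoc]
  have rep : ∀ a : Fin 3, x <:+: List.replicate K a → x = List.replicate k a := by
    intro a h
    rw [List.infix_replicate_iff] at h
    rw [h.2, hl]
  have hb : ∀ a : Fin 3, List.replicate k a <:+: block k := by
    intro a
    unfold block
    fin_cases a
    · exact ⟨[], _, by simp; rfl⟩
    · exact ⟨List.replicate k 0, List.replicate k 2, by simp⟩
    · exact ⟨List.replicate k 0 ++ List.replicate k 1, [], by simp⟩
  unfold block at hx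
  rcases infix_append_cases hx with h | h | ⟨s, t, rfl, hs, ht⟩
  · rw [rep 0 h]; exact hb 0
  · rcases infix_append_cases h with h | h | ⟨s, t, rfl, hs, ht⟩
    · rw [rep 1 h]; exact hb 1
    · rw [rep 2 h]; exact hb 2
    · rw [List.length_append] at hl
      exact (key 1 2 s t hl hs ht).trans ⟨List.replicate k 0, [], by simp [block]⟩
  · rw [List.length_append] at hl
    have ht' : t <+: List.replicate K 1 := by
      refine List.prefix_of_prefix_length_le ht (List.prefix_append _ _) ?_
      simp; omega
    exact (key 0 1 s t hl hs ht').trans ⟨[], List.replicate k 2, by simp [block]⟩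

theorem all_factors (n : ℕ) (m : ℕ) (hm : n ≤ m) : ∀ x : List (Fin 3), x <:+: U m →
    x.length = kk n → x <:+: V n (kk n) := by
  have hkU : (U n).length < kk n := by unfold kk; omega
  have hpre : ∀ m, n ≤ m → ∀ t, t <+: U m → t.length ≤ kk n →
      t <+: U n ++ List.replicate (kk n) 0 := by
    intro m hm t ht hl
    rcases Nat.lt_or_eq_of_le hm with h | rfl
    · have h1 : U n ++ List.replicate (kk n) 0 <+: U m := by
        refine List.IsPrefix.trans ?_ (U_pre (n + 1) m h)
        rw [U_succ]
        refine ⟨List.replicate (kk n) 1 ++ List.replicate (kk n) 2 ++ U n, ?_⟩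
        simp [block]
      exact List.prefix_of_prefix_length_le ht h1 (by simp; omega)
    · exact ht.trans (List.prefix_append _ _)
  have hsuf : ∀ m, n ≤ m → ∀ t, t <:+ U m → t.length ≤ kk n →
      t <:+ List.replicate (kk n) 2 ++ U n := by
    intro m hm t ht hl
    rcases Nat.lt_or_eq_of_le hm with h | rfl
    · have h1 : List.replicate (kk n) 2 ++ U n <:+ U m := by
        refine List.IsSuffix.trans ?_ (U_suf (n + 1) m h)
        rw [U_succ]
        refine ⟨U n ++ List.replicate (kk n) 0 ++ List.replicate (kk n) 1, ?_⟩
        simp [block]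
      exact List.suffix_of_suffix_length_le ht h1 (by simp; omega)
    · exact ht.trans (List.suffix_append _ _)
  have hV : ∀ s t, s <:+ List.replicate (kk n) 2 ++ U n → t <+: List.replicate (kk n) 0 →
      s ++ t <:+: V n (kk n) := by
    rintro s t ⟨p, hp⟩ ⟨q, hq⟩
    refine ⟨List.replicate (kk n) 0 ++ (List.replicate (kk n) 1 ++ p), q, ?_⟩
    calc _ = List.replicate (kk n) 0 ++ (List.replicate (kk n) 1 ++ ((p ++ s) ++ (t ++ q))) := by
          simp only [List.append_assoc]
      _ = _ := by rw [hp, hq]; simp only [V, List.append_assoc]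
  have hV' : ∀ s t, s <:+ List.replicate (kk n) 2 → t <+: U n ++ List.replicate (kk n) 0 →
      s ++ t <:+: V n (kk n) := by
    rintro s t ⟨p, hp⟩ ⟨q, hq⟩
    refine ⟨List.replicate (kk n) 0 ++ (List.replicate (kk n) 1 ++ p), q, ?_⟩
    calc _ = List.replicate (kk n) 0 ++ (List.replicate (kk n) 1 ++ ((p ++ s) ++ (t ++ q))) := by
          simp only [List.append_assoc]
      _ = _ := by rw [hp, hq]; simp only [V, List.append_assoc]
  have hsuf2 : ∀ (K : ℕ), kk n ≤ K → ∀ s : List (Fin 3), s <:+ block K → s.length ≤ kk n →
      s <:+ List.replicate (kk n) 2 := by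
    intro K hK s hs hl
    refine List.suffix_of_suffix_length_le hs ?_ (by simpa using hl)
    refine ⟨List.replicate K 0 ++ (List.replicate K 1 ++ List.replicate (K - kk n) 2), ?_⟩
    unfold block
    have : List.replicate K (2 : Fin 3) = List.replicate (K - kk n) 2 ++ List.replicate (kk n) 2 := by
      rw [← List.replicate_add]; congr 1; omega
    rw [this]; simp only [List.append_assoc]
  have hpre2 : ∀ (K : ℕ), kk n ≤ K → ∀ (s l : List (Fin 3)), s <+: block K ++ l →
      s.length ≤ kk n → s <+: List.replicate (kk n) 0 := by
    intro K hK s l hs hl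
    refine List.prefix_of_prefix_length_le hs ?_ (by simpa using hl)
    refine ⟨List.replicate (K - kk n) 0 ++ (List.replicate K 1 ++ List.replicate K 2) ++ l, ?_⟩
    unfold block
    have : List.replicate K (0 : Fin 3) = List.replicate (kk n) 0 ++ List.replicate (K - kk n) 0 := by
      rw [← List.replicate_add]; congr 1; omega
    rw [this]; simp only [List.append_assoc]
  induction m, hm using Nat.le_induction with
  | base =>
    intro x hx hl
    have := hx.length_le
    omega
  | succ m hm ih =>
    intro x hx hl
    rw [U_succ] at hx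
    have hK := kk_mono n m hm
    rcases infix_append_cases hx with h | h | ⟨s, t, rfl, hs, ht⟩
    · exact ih x h hl
    · rcases infix_append_cases h with h | h | ⟨s, t, rfl, hs, ht⟩
      · refine (block_factor hK h hl).trans ⟨[], U n ++ List.replicate (kk n) 0, ?_⟩
        simp [block, V]
      · exact ih x h hl
      · rw [List.length_append] at hl
        exact hV' s t (hsuf2 _ hK s hs (by omega)) (hpre m hm t ht (by omega))
    · rw [List.length_append] at hl
      exact hV s t (hsuf m hm s hs (by omega)) (hpre2 _ hK t _ ht (by omega))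

theorem complexity_le (n : ℕ) : complexity u (kk n) ≤ 3 * kk n + (U n).length + 1 := by
  have hsub : {w | w ∈ language u ∧ w.length = kk n} ⊆
      ((Finset.range (3 * kk n + (U n).length + 1)).image
        fun i => ((V n (kk n)).drop i).take (kk n) : Finset (List (Fin 3))) := by
    rintro w ⟨hw, hl⟩
    obtain ⟨m, hm⟩ := (mem_language_iff w).1 hw
    obtain ⟨s, t, hst⟩ := all_factors n (max n m) (le_max_left _ _) w
      (hm.trans (U_pre _ _ (le_max_right _ _)).isInfix) hl
    rw [Finset.coe_image, Set.mem_image]
    refine ⟨s.length, ?_, ?_⟩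
    · have := congrArg List.length hst
      rw [V_length] at this
      simp only [List.length_append] at this
      simp only [Finset.coe_range, Set.mem_Iio]
      omega
    · rw [← hst, List.append_assoc, List.drop_left, ← hl, List.take_left]
  unfold complexity
  calc _ ≤ _ := Set.ncard_le_ncard hsub (Finset.finite_toSet _)
    _ ≤ _ := by
      rw [Set.ncard_coe_finset]
      exact Finset.card_image_le.trans (by simp)

theorem lang_finite (n : ℕ) : {w : List (Fin 3) | w ∈ language u ∧ w.length = n}.Finite :=
  (List.finite_length_eq (Fin 3) n).subset fun _ hw => hw.2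

theorem three_le_pal (n : ℕ) (hn : 1 ≤ n) : 3 ≤ palComplexity u n := by
  have h1 : ((Finset.univ.image fun a : Fin 3 => List.replicate n a : Finset (List (Fin 3))) :
      Set (List (Fin 3))) ⊆ {w | w ∈ language u ∧ w.length = n ∧ w.reverse = w} := by
    intro w hw
    rw [Finset.coe_image, Set.mem_image] at hw
    obtain ⟨a, -, rfl⟩ := hw
    exact ⟨rep_mem a n, by simp, by simp⟩
  have h2 := Set.ncard_le_ncard h1 ((lang_finite n).subset fun w hw => ⟨hw.1, hw.2.1⟩)
  rw [Set.ncard_coe_finset, Finset.card_image_of_injective] at h2
  · simpa [palComplexity] using h2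
  · intro a b hab
    obtain ⟨k, rfl⟩ : ∃ k, n = k + 1 := ⟨n - 1, by omega⟩
    have : a = b ∧ (k = 0 ∨ a = b) := by simpa [List.replicate_succ] using hab
    exact this.1

theorem nil_mem : [] ∈ language u := ⟨0, 0, by simp [factor]⟩

theorem complexity_zero : complexity u 0 = 1 := by
  unfold complexity
  have : {w : List (Fin 3) | w ∈ language u ∧ w.length = 0} = {[]} := by
    ext w
    simp only [Set.mem_ofPred_eq, Set.mem_singleton_iff, List.length_eq_zero_iff]
    exact ⟨fun h => h.2, fun h => ⟨h ▸ nil_mem, h⟩⟩
  rw [this, Set.ncard_singleton]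

theorem one_le_pal_zero : 1 ≤ palComplexity u 0 := by
  unfold palComplexity
  rw [Nat.one_le_iff_ne_zero, ← Nat.pos_iff_ne_zero, Set.ncard_pos
    ((lang_finite 0).subset fun w hw => ⟨hw.1, hw.2.1⟩)]
  exact ⟨[], nil_mem, by simp, by simp⟩

theorem sum_T (M : ℕ) (hM : 1 ≤ M) : ∑ n ∈ Finset.range M, T u n ≤
    (complexity u M : ℤ) - 4 * M + 1 := by
  induction M, hM using Nat.le_induction with
  | base =>
    have h1 := three_le_pal 1 le_rfl
    have h2 := one_le_pal_zero
    have h3 := complexity_zero
    simp only [Finset.range_one, Finset.sum_singleton, T]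
    push_cast
    omega
  | succ M hM ih =>
    rw [Finset.sum_range_succ]
    have h1 := three_le_pal M hM
    have h2 := three_le_pal (M + 1) (by omega)
    have h3 : T u M = (complexity u (M + 1) : ℤ) - complexity u M + 2 - palComplexity u (M + 1) -
      palComplexity u M := rfl
    rw [h3]
    push_cast
    omega

theorem sum_T_le (n : ℕ) : ∑ n ∈ Finset.range (kk n), T u n ≤ -(n : ℤ) := by
  have h1 := sum_T (kk n) (by unfold kk; omega)
  have h2 := complexity_le n
  have h3 : kk n = 2 * (U n).length + n + 2 := rfl
  omega

/-- The answer to Q1 is negative: it is not true that every recurrent infinite word with infinitely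
many palindromic factors and a language not closed under reversal satisfies
`2 D(u) = ∑ T_u(n)`. -/
theorem result : ¬ ∀ (A : Type) [Finite A] (u : ℕ → A), IsRecurrent u →
    {w | w ∈ language u ∧ w.reverse = w}.Infinite → ¬ ClosedUnderReversal u →
    SumEqTwiceDefect u := by
  intro h
  have h1 := h (Fin 3) u recurrent inf_pal not_closed
  unfold SumEqTwiceDefect at h1
  have h2 : ((-1 : ℝ) : EReal) < (((2 * defect u : ℕ∞) : ENNReal) : EReal) := by
    refine lt_of_lt_of_le ?_ (EReal.coe_ennreal_nonneg _)
    exact_mod_cast (by norm_num : (-1 : ℝ) < 0)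
  have h3 := h1.eventually (lt_mem_nhds h2)
  rw [eventually_atTop] at h3
  obtain ⟨N, hN⟩ := h3
  have h4 := hN (kk (N + 1)) (by unfold kk; omega)
  have h5 := sum_T_le (N + 1)
  rw [EReal.coe_lt_coe_iff] at h4
  have h6 : (-1 : ℤ) < ∑ n ∈ Finset.range (kk (N + 1)), T u n := by exact_mod_cast h4
  push_cast at h5
  omega

end Pool.Agent.Results.MP_4402c4_co.SumDiverges
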